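import Pool.Agent.Helper14_DK.Stmts

set_option autoImplicit false

namespace Pool.Agent.DK.H19

open MeasureTheory Complex Set Metric Filter
open scoped ContDiff Topology

variable {n : ℕ}

lemma wcl_of_wdb {D : Set (E n)} {F : E n → ℂ} {α : Fin n → E n → ℂ} (h : WDb D F α) :
    WCl D α := by
  intro j k ψ hψ
  have h1 := h j (dbar k ψ) (hψ.dbar k)
  have h2 := h k (dbar j ψ) (hψ.dbar j)
  have h3 : ∫ z, F z * dbar j (dbar k ψ) z = ∫ z, F z * dbar k (dbar j ψ) z := by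
    refine integral_congr_ae (Eventually.of_forall fun z => ?_)
    change F z * _ = F z * _
    rw [dbar_dbar_comm (hψ.sm.contDiffAt.of_le (by norm_cast))]
  rw [h1, h2] at h3
  exact neg_injective h3

lemma wdb_sub {D D' : Set (E n)} (hDD : D' ⊆ D) {F u : E n → ℂ} {α α' : Fin n → E n → ℂ}
    (hF : MemLp F 2 volume) (hu : MemLp u 2 volume) (hα : ∀ j, MemLp (α j) 2 volume)
    (hα' : ∀ j, MemLp (α' j) 2 volume) (h : WDb D F α)
    (h' : WDb D' u (fun j z => α j z - α' j z)) : WDb D' (fun z => F z - u z) α' := by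
  intro j ψ hψ
  have h1 := h j ψ (hψ.mono hDD)
  have h2 := h' j ψ hψ
  have e1 : ∫ z, (F z - u z) * dbar j ψ z = (∫ z, F z * dbar j ψ z) - ∫ z, u z * dbar j ψ z := by
    rw [← integral_sub (integrable_mul_test' hF (hψ.dbar j)) (integrable_mul_test' hu (hψ.dbar j))]
    refine integral_congr_ae (Eventually.of_forall fun z => ?_)
    change (F z - u z) * _ = _ - _
    ring
  have e2 : ∫ z, (α j z - α' j z) * ψ z = (∫ z, α j z * ψ z) - ∫ z, α' j z * ψ z := by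
    rw [← integral_sub (integrable_mul_test' (hα j) hψ) (integrable_mul_test' (hα' j) hψ)]
    refine integral_congr_ae (Eventually.of_forall fun z => ?_)
    change (α j z - α' j z) * _ = _ - _
    ring
  rw [e1, h1, h2, e2]
  ring

lemma integrable_sum_sq {α : Fin n → E n → ℂ} (hα : ∀ j, MemLp (α j) 2 volume) :
    Integrable (fun z => ∑ j, ‖α j z‖ ^ 2) := by
  refine integrable_finsetSum _ fun j _ => ?_
  exact_mod_cast (hα j).integrable_norm_pow (p := 2) (by norm_num)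

/-- the properties of one state -/
def St (ρ : E n → ℝ) (κ : ℝ) (s : (E n → ℂ) × (Fin n → E n → ℂ)) : Prop :=
  MemLp s.1 2 volume ∧ (∀ j, MemLp (s.2 j) 2 volume) ∧ WDb {z | ρ z < κ} s.1 s.2

/-- SEQ -/
theorem seq (hR : RoundStmt) : SeqStmt := by
  intro n hn ρ κ₀ hN
  obtain ⟨θ, C, t₀, κ₁, hθ0, hθ1, hC, ht₀, hκ₁, hκ₁₀, hround⟩ := hR n hn ρ κ₀ hN
  refine ⟨θ, C * t₀ + C ^ 2, κ₁, hθ0, hθ1, by positivity, hκ₁, hκ₁₀, ?_⟩
  intro κ hκ hκκ F₀ α₀ hF₀ hα₀ hW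
  have hstep : ∀ (m : ℕ) (s : (E n → ℂ) × (Fin n → E n → ℂ)), St ρ (θ ^ m * κ) s →
      ∃ r : (E n → ℂ) × (Fin n → E n → ℂ), MemLp r.1 2 volume ∧
        St ρ (θ ^ (m + 1) * κ) ((fun z => s.1 z - r.1 z), r.2) ∧
        ∫ z, ‖r.1 z‖ ^ 2 ≤ Real.exp (C * (t₀ + m)) * ∫ z, ∑ j, ‖s.2 j z‖ ^ 2 ∧
        ∫ z, ∑ j, ‖r.2 j z‖ ^ 2 ≤ Real.exp (-(t₀ + m)) * ∫ z, ∑ j, ‖s.2 j z‖ ^ 2 := by
    rintro m ⟨F, α⟩ ⟨h1, h2, h3⟩
    have hm0 : (0 : ℝ) ≤ m := Nat.cast_nonneg m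
    have hθm : θ ^ m ≤ 1 := pow_le_one₀ hθ0.le hθ1.le
    have hpos : 0 < θ ^ m * κ := by positivity
    obtain ⟨u, α', hu, hα', -, hw, -, hb1, hb2⟩ := hround (θ ^ m * κ) (t₀ + m) hpos
      (by nlinarith) (by linarith) α h2 (wcl_of_wdb h3)
    have hset : ∫ z in {z | ρ z < θ ^ m * κ}, ∑ j, ‖α j z‖ ^ 2 ≤ ∫ z, ∑ j, ‖α j z‖ ^ 2 :=
      setIntegral_le_integral (integrable_sum_sq h2)
        (Eventually.of_forall fun z => Finset.sum_nonneg fun j _ => sq_nonneg _)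
    have e : θ ^ (m + 1) * κ = θ * (θ ^ m * κ) := by ring
    refine ⟨(u, α'), hu, ⟨h1.sub hu, hα', ?_⟩, ?_, ?_⟩
    · rw [e]
      refine wdb_sub ?_ h1 hu h2 hα' h3 hw
      intro z hz
      have hz' : ρ z < θ * (θ ^ m * κ) := hz
      change ρ z < θ ^ m * κ
      nlinarith
    · exact hb1.trans (mul_le_mul_of_nonneg_left hset (Real.exp_pos _).le)
    · exact hb2.trans (mul_le_mul_of_nonneg_left hset (Real.exp_pos _).le)
  choose! r hr1 hr2 hr3 hr4 using hstep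
  let s : ℕ → (E n → ℂ) × (Fin n → E n → ℂ) := fun m =>
    Nat.rec (F₀, α₀) (fun m s => ((fun z => s.1 z - (r m s).1 z), (r m s).2)) m
  have hs0 : s 0 = (F₀, α₀) := rfl
  have hs1 : ∀ m, s (m + 1) = ((fun z => (s m).1 z - (r m (s m)).1 z), (r m (s m)).2) :=
    fun m => rfl
  have hSt : ∀ m, St ρ (θ ^ m * κ) (s m) := by
    intro m
    induction m with
    | zero =>
      rw [hs0, pow_zero, one_mul]
      exact ⟨hF₀, hα₀, hW⟩
    | succ m ih =>
      rw [hs1]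
      exact hr2 m _ ih
  set a : ℕ → ℝ := fun m => ∫ z, ∑ j, ‖(s m).2 j z‖ ^ 2 with ha
  have ha0 : ∀ m, 0 ≤ a m := fun m =>
    integral_nonneg fun z => Finset.sum_nonneg fun j _ => sq_nonneg _
  have hdec : ∀ m : ℕ, a m ≤ Real.exp (-((m : ℝ) ^ 2 / 2 + m / 2)) * a 0 := by
    intro m
    induction m with
    | zero => simp
    | succ m ih =>
      have h1 : a (m + 1) ≤ Real.exp (-(t₀ + m)) * a m := by
        have := hr4 m (s m) (hSt m)
        simp only [ha, hs1]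
        exact this
      calc a (m + 1) ≤ Real.exp (-(t₀ + m)) * a m := h1
        _ ≤ Real.exp (-(1 + (m : ℝ))) * (Real.exp (-((m : ℝ) ^ 2 / 2 + m / 2)) * a 0) := by
            apply mul_le_mul _ ih (ha0 m) (Real.exp_pos _).le
            apply Real.exp_le_exp.2
            linarith
        _ = Real.exp (-(((m + 1 : ℕ) : ℝ) ^ 2 / 2 + ((m + 1 : ℕ) : ℝ) / 2)) * a 0 := by
            rw [← mul_assoc, ← Real.exp_add]
            congr 2
            push_cast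
            ring
  refine ⟨fun m => (s m).1, fun m => (s m).2, fun m => (r m (s m)).1, rfl, rfl,
    fun m z => rfl, fun m => (hSt m).1, fun m j => (hSt m).2.1 j, fun m => hr1 m _ (hSt m),
    fun m => (hSt m).2.2, ?_, ?_⟩
  · intro m
    have hm0 : (0 : ℝ) ≤ m := Nat.cast_nonneg m
    calc ∫ z, ‖(r m (s m)).1 z‖ ^ 2 ≤ Real.exp (C * (t₀ + m)) * a m := hr3 m (s m) (hSt m)
      _ ≤ Real.exp (C * (t₀ + m)) * (Real.exp (-((m : ℝ) ^ 2 / 2 + m / 2)) * a 0) :=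
          mul_le_mul_of_nonneg_left (hdec m) (Real.exp_pos _).le
      _ = Real.exp (C * (t₀ + m) + -((m : ℝ) ^ 2 / 2 + m / 2)) * a 0 := by
          rw [← mul_assoc, ← Real.exp_add]
      _ ≤ Real.exp (C * t₀ + C ^ 2 - (m : ℝ) ^ 2 / 4) * a 0 := by
          apply mul_le_mul_of_nonneg_right _ (ha0 0)
          apply Real.exp_le_exp.2
          nlinarith [sq_nonneg (C - (m : ℝ) / 2)]
  · intro m
    have hm0 : (0 : ℝ) ≤ m := Nat.cast_nonneg m
    calc ∫ z, ∑ j, ‖(s m).2 j z‖ ^ 2 ≤ Real.exp (-((m : ℝ) ^ 2 / 2 + m / 2)) * a 0 := hdec m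
      _ ≤ Real.exp (C * t₀ + C ^ 2 - (m : ℝ) ^ 2 / 4) * a 0 := by
          apply mul_le_mul_of_nonneg_right _ (ha0 0)
          apply Real.exp_le_exp.2
          nlinarith [mul_pos hC (by linarith : (0 : ℝ) < t₀), sq_nonneg C, sq_nonneg (m : ℝ)]

end Pool.Agent.DK.H19
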